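import Pool.Agent.Lib.MP_b54217_ag.C.Dim

/-!
# Secant varieties of Segre-Veronese varieties: all but finitely many in every dimension

For every `m` and for all but finitely many Segre-Veronese varieties of dimension `m` (those with a
large degree): the list of all defective cases and the dimension of all secant varieties.
-/

set_option autoImplicit false

namespace Pool.Agent.Results.MP_b54217_ag.AlmostAll

open Pool.Agent.SV

/-- For every `m` there is `D` such that for all `k`, `n_1, ..., n_k ≥ 2`, `d_1, ..., d_k ≥ 1` with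
`∑ (n_i - 1) = m` and `d_i ≥ D` for some `i`, and for all `r ≥ 1`: the Segre-Veronese variety
`P^{n_1 - 1} × ... × P^{n_k - 1}` of multidegree `(d_1, ..., d_k)` is `r`-defective exactly in the
following two cases (up to the order of the factors).
(A) `k = 2`, `n_2 = 2`, `d_1 = 2`, `2 ⌈r / n_1⌉ = d_2 + 2`, and `n_1` does not divide `r`.
(B) `k = 3`, `n_3 = 2`, `d_1 = d_2 = 1`, `⌈r / n_1⌉ + ⌈r / n_2⌉ = d_3 + 2`, and neither `n_1` nor
`n_2` divides `r`.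
The affine cone over the `r`-th secant variety has dimension
`(n_1 + 1 choose 2) (d_2 + 1) - (n_1 ⌈r / n_1⌉ - r + 1 choose 2)` in case (A),
`n_1 n_2 (d_3 + 1) - (n_1 ⌈r / n_1⌉ - r) (n_2 ⌈r / n_2⌉ - r)` in case (B), and the expected
dimension otherwise. -/
theorem result (m : ℕ) : ∃ D : ℕ, ∀ (k : ℕ) (n d : Fin k → ℕ),
    (∀ i, 2 ≤ n i) → (∀ i, 1 ≤ d i) → svDim n d = m → (∃ i, D ≤ d i) → ∀ r : ℕ, 1 ≤ r →
      (∀ i j, i ≠ j → (∀ l, l = i ∨ l = j) → n j = 2 → d i = 2 →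
        2 * (r ⌈/⌉ n i) = d j + 2 → ¬ n i ∣ r →
        Defective n d r ∧ secDim n d r = (((n i + 1).choose 2 * (d j + 1) -
          (n i * (r ⌈/⌉ n i) - r + 1).choose 2 : ℕ) : WithBot ℕ∞)) ∧
      (∀ h i j, h ≠ i → h ≠ j → i ≠ j → (∀ l, l = h ∨ l = i ∨ l = j) → n j = 2 →
        d h = 1 → d i = 1 → r ⌈/⌉ n h + r ⌈/⌉ n i = d j + 2 → ¬ n h ∣ r → ¬ n i ∣ r →
        Defective n d r ∧ secDim n d r = ((n h * n i * (d j + 1) -
          (n h * (r ⌈/⌉ n h) - r) * (n i * (r ⌈/⌉ n i) - r) : ℕ) : WithBot ℕ∞)) ∧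
      ((¬ ∃ i j, i ≠ j ∧ (∀ l, l = i ∨ l = j) ∧ n j = 2 ∧ d i = 2 ∧
        2 * (r ⌈/⌉ n i) = d j + 2 ∧ ¬ n i ∣ r) →
      (¬ ∃ h i j, h ≠ i ∧ h ≠ j ∧ i ≠ j ∧ (∀ l, l = h ∨ l = i ∨ l = j) ∧ n j = 2 ∧
        d h = 1 ∧ d i = 1 ∧ r ⌈/⌉ n h + r ⌈/⌉ n i = d j + 2 ∧ ¬ n h ∣ r ∧ ¬ n i ∣ r) →
        ¬ Defective n d r ∧ secDim n d r =
          ((min (r * (svDim n d + 1)) (Fintype.card (Idx n d)) : ℕ) : WithBot ℕ∞)) :=
  C.dim_uniform _ (fun _ n hn => C.all n hn) m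

end Pool.Agent.Results.MP_b54217_ag.AlmostAll
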