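import Pool.Agent.Lib.MP_b54217_ag.I.Large

/-!
# Secant varieties of `P^{n-1} × Y` embedded by `O(1, d_1, ..., d_k)`

`Y = P^{M_1} × ... × P^{M_k}` is any product of projective spaces of dimension `m ≥ 2`,
`N = ∏ (M_i + d_i choose M_i)`.  The dimension of all secant varieties of the Segre-Veronese
varieties with a linear factor and with the other degrees large, and the list of all defective
cases.
-/

set_option autoImplicit false

namespace Pool.Agent.Results.MP_b54217_ag.LinearFactor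

open Pool.Agent.SV

/-- Let `M_1, ..., M_k` be natural numbers with sum `m ≥ 2`, `d_i ≥ 2`,
`N = ∏ (M_i + d_i choose M_i)`, `n ≥ 2`, `r ≥ 1`.  Suppose that one of the following holds.
(a) `d_i ≥ 8 m^3` for all `i`.
(b) `n ≥ m + 1`, `(m+1)(2N + (2m+1)(3m-2))(M_i + d_i) ≤ 2 (2m+1) N d_i` for all `i` and
`(2m+1) m (m+2) ≤ N`.
(c) `n ≤ m`, `(m+1) M_i ≤ (n-1)(d_i - 2)` for all `i` and
`(n+m)(n+m-1)^2 (M_i + d_i) ≤ M_i N` for some `i`.
Then the affine cone over the `r`-th secant variety of the Segre-Veronese variety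
`P^{n-1} × P^{M_1} × ... × P^{M_k}` of multidegree `(1, d_1, ..., d_k)` has dimension
`r (n + N - r)` if `N - m < r < min (n, N)`, and the expected dimension `min (r (n + m), n N)`
otherwise.  It is `r`-defective if and only if `N - m < r < min (n, N)`. -/
theorem result {k : ℕ} (M d : Fin k → ℕ) (n m N r : ℕ) (hm : ∑ i, M i = m)
    (hN : ∏ i, (M i + d i).choose (M i) = N) (h2 : 2 ≤ m) (hn : 2 ≤ n) (hr : 1 ≤ r)
    (hd : ∀ i, 2 ≤ d i)
    (H : (∀ i, 8 * m ^ 3 ≤ d i) ∨
      (m + 1 ≤ n ∧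
        (∀ i, (m + 1) * (2 * N + (2 * m + 1) * (3 * m - 2)) * (M i + d i) ≤
          2 * (2 * m + 1) * (N * d i)) ∧
        (2 * m + 1) * (m * (m + 2)) ≤ N) ∨
      (n ≤ m ∧ (∀ i, (m + 1) * M i ≤ (n - 1) * (d i - 2)) ∧
        ∃ i, (n + m) * (n + m - 1) ^ 2 * (M i + d i) ≤ M i * N)) :
    secDim (Fin.cons n fun i => M i + 1) (Fin.cons 1 d) r =
      ((if N < r + m ∧ r < N ∧ r < n then r * (n + N - r)
        else min (r * (n + m)) (n * N) : ℕ) : WithBot ℕ∞) ∧
    (Defective (Fin.cons n fun i => M i + 1) (Fin.cons 1 d) r ↔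
      N < r + m ∧ r < N ∧ r < n) := by
  refine G.classif hm hN h2 hn hr hd (fun h => ?_) (fun h => ?_)
  · rcases H with H | H | H
    · exact G.large_A hm hN h2 H
    · exact H.2
    · omega
  · rcases H with H | H | H
    · exact G.large_B hm hN h2 hn H h
    · omega
    · exact H.2

end Pool.Agent.Results.MP_b54217_ag.LinearFactor
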