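import Pool.Agent.Lib.MP_b54217_ag.S.FinalP

/-!
# Secant varieties of `P^{n-1} × P^2` embedded by `O(1,d)`

The dimension of all secant varieties of the Segre-Veronese varieties with `k = 2`,
`n = (n, 3)`, bidegree `(1, d)`, `n ≥ 3`, `d ≥ 2`, and the list of all defective cases.
-/

set_option autoImplicit false

namespace Pool.Agent.Results.MP_b54217_ag.LinearTimesPlane

open Pool.Agent.SV

/-- For all `n ≥ 3`, `d ≥ 2`, `r ≥ 1`, with `N = (d+2 choose 2)`: the affine cone over the `r`-th
secant variety of the Segre-Veronese variety `P^{n-1} × P^2` of bidegree `(1,d)` has dimension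
`r (n + 1)` if `r + 1 = N ≤ n`, and the expected dimension `min (r (n + 2), n N)` otherwise.  It is
`r`-defective if and only if `r + 1 = N ≤ n`. -/
theorem result (n d r : ℕ) (hn : 3 ≤ n) (hd : 2 ≤ d) (hr : 1 ≤ r) :
    secDim ![n, 3] ![1, d] r =
      ((if r + 1 = (d + 2).choose 2 ∧ (d + 2).choose 2 ≤ n then r * (n + 1)
        else min (r * (n + 2)) (n * (d + 2).choose 2) : ℕ) : WithBot ℕ∞) ∧
    (Defective ![n, 3] ![1, d] r ↔ r + 1 = (d + 2).choose 2 ∧ (d + 2).choose 2 ≤ n) :=
  ⟨S.dim_P n d r hn hd, S.defective_P n d r hn hd hr⟩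

end Pool.Agent.Results.MP_b54217_ag.LinearTimesPlane
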