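import Pool.Agent.Lib.MP_b54217_ag.Final

/-!
# Secant varieties of `P^{a-1} × P^{b-1} × P^1` embedded by `O(1,1,d)`

The dimension of all secant varieties of the Segre-Veronese varieties with `k = 3`,
`n = (a, b, 2)`, multidegree `(1, 1, d)`, and the list of all defective cases.
-/

set_option autoImplicit false

namespace Pool.Agent.Results.MP_b54217_ag.OneOneD

open Pool.Agent.SV

/-- For all `a, b, d, r ≥ 1`: the affine cone over the `r`-th secant variety of the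
Segre-Veronese variety `P^{a-1} × P^{b-1} × P^1` of multidegree `(1,1,d)` has dimension
`r (a + b)` if `⌈r/a⌉ + ⌈r/b⌉ ≤ d + 1`,
`a b (d + 1) - (a ⌈r/a⌉ - r) (b ⌈r/b⌉ - r)` if `⌈r/a⌉ + ⌈r/b⌉ = d + 2`, and `a b (d + 1)`
otherwise.  It is `r`-defective if and only if `⌈r/a⌉ + ⌈r/b⌉ = d + 2` and neither `a` nor `b`
divides `r`. -/
theorem result (a b d r : ℕ) (ha : 1 ≤ a) (hb : 1 ≤ b) (hd : 1 ≤ d) (hr : 1 ≤ r) :
    secDim ![a, b, 2] ![1, 1, d] r =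
      ((if r ⌈/⌉ a + r ⌈/⌉ b ≤ d + 1 then r * (a + b)
        else if r ⌈/⌉ a + r ⌈/⌉ b = d + 2 then
          a * b * (d + 1) - (a * (r ⌈/⌉ a) - r) * (b * (r ⌈/⌉ b) - r)
        else a * b * (d + 1) : ℕ) : WithBot ℕ∞) ∧
    (Defective ![a, b, 2] ![1, 1, d] r ↔
      r ⌈/⌉ a + r ⌈/⌉ b = d + 2 ∧ ¬ a ∣ r ∧ ¬ b ∣ r) :=
  ⟨dim_formula a b d r ha hb hr, defective_iff a b d r ha hb hd hr⟩

end Pool.Agent.Results.MP_b54217_ag.OneOneD
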